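import Mathlib

set_option autoImplicit false

open FirstOrder

namespace Pool.Agent.U109.EE

/-- the relational language with the arities `a` -/
abbrev Lg (a : ℕ → ℕ) : FirstOrder.Language :=
  FirstOrder.Language.mk (fun _ => PEmpty.{1}) (fun n => {i : ℕ // a i = n})

/-- the codes of the structures on `ℕ` -/
abbrev Cd (a : ℕ → ℕ) : Type := ∀ i : ℕ, (Fin (a i) → ℕ) → Bool

/-- the structure coded by `u` -/
abbrev St (a : ℕ → ℕ) (u : Cd a) : (Lg a).Structure ℕ :=
  @FirstOrder.Language.Structure.mk (Lg a) ℕ (fun f _ => PEmpty.elim f)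
    (fun r xs => u (Subtype.val r) (xs ∘ Fin.cast (Subtype.property r)) = true)

section

variable {a : ℕ → ℕ} (u v : Cd a)

/-- `σ` respects the symbols in `S` -/
def Resp (S : Finset ℕ) (σ : ℕ → ℕ) : Prop :=
  ∀ i ∈ S, ∀ xs : Fin (a i) → ℕ, u i xs = v i (σ ∘ xs)

lemma Resp.mono {S T : Finset ℕ} (h : S ⊆ T) {σ : ℕ → ℕ} (hσ : Resp u v T σ) : Resp u v S σ :=
  fun i hi => hσ i (h hi)

lemma term_var {α : Type} {n : ℕ} (t : (Lg a).Term (α ⊕ Fin n)) :
    ∃ x, t = FirstOrder.Language.Term.var x := by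
  cases t with
  | var x => exact ⟨x, rfl⟩
  | func f _ => exact PEmpty.elim f

/-- Each formula is respected by the bijections which respect some finite set of symbols. -/
theorem exists_finset {α : Type} {n : ℕ} (φ : (Lg a).BoundedFormula α n) :
    ∃ S : Finset ℕ, ∀ σ : ℕ → ℕ, Function.Bijective σ → Resp u v S σ →
      ∀ (w : α → ℕ) (xs : Fin n → ℕ),
        (@FirstOrder.Language.BoundedFormula.Realize (Lg a) ℕ (St a u) α n φ w xs ↔
          @FirstOrder.Language.BoundedFormula.Realize (Lg a) ℕ (St a v) α n φ (σ ∘ w) (σ ∘ xs)) := by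
  induction φ with
  | falsum => exact ⟨∅, fun σ _ _ w xs => Iff.rfl⟩
  | @equal n t₁ t₂ =>
    refine ⟨∅, fun σ hσ _ w xs => ?_⟩
    obtain ⟨x, rfl⟩ := term_var t₁
    obtain ⟨y, rfl⟩ := term_var t₂
    have h : ∀ z : α ⊕ Fin n, Sum.elim (σ ∘ w) (σ ∘ xs) z = σ (Sum.elim w xs z) := by
      rintro (z | z) <;> rfl
    change Sum.elim w xs x = Sum.elim w xs y ↔
      Sum.elim (σ ∘ w) (σ ∘ xs) x = Sum.elim (σ ∘ w) (σ ∘ xs) y
    rw [h, h]
    exact ⟨fun h => by rw [h], fun h => hσ.1 h⟩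
  | @rel n l R ts =>
    refine ⟨{R.1}, fun σ hσ hS w xs => ?_⟩
    choose x hx using fun i => term_var (ts i)
    have h : ∀ z : α ⊕ Fin n, Sum.elim (σ ∘ w) (σ ∘ xs) z = σ (Sum.elim w xs z) := by
      rintro (z | z) <;> rfl
    have e1 : (fun i => @FirstOrder.Language.Term.realize (Lg a) ℕ (St a u) _ (Sum.elim w xs) (ts i)) =
        fun i => Sum.elim w xs (x i) := by
      funext i
      rw [hx i]
      rfl
    have e2 : (fun i => @FirstOrder.Language.Term.realize (Lg a) ℕ (St a v) _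
        (Sum.elim (σ ∘ w) (σ ∘ xs)) (ts i)) = fun i => σ (Sum.elim w xs (x i)) := by
      funext i
      rw [hx i, ← h]
      rfl
    change (u R.1 ((fun i => @FirstOrder.Language.Term.realize (Lg a) ℕ (St a u) _ (Sum.elim w xs) (ts i))
        ∘ Fin.cast R.2) = true) ↔
      (v R.1 ((fun i => @FirstOrder.Language.Term.realize (Lg a) ℕ (St a v) _
        (Sum.elim (σ ∘ w) (σ ∘ xs)) (ts i)) ∘ Fin.cast R.2) = true)
    rw [e1, e2, hS R.1 (Finset.mem_singleton_self _)]
    rfl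
  | @imp n φ ψ h1 h2 =>
    obtain ⟨S, hS⟩ := h1
    obtain ⟨T, hT⟩ := h2
    refine ⟨S ∪ T, fun σ hσ hU w xs => ?_⟩
    have e1 := hS σ hσ (hU.mono _ _ Finset.subset_union_left) w xs
    have e2 := hT σ hσ (hU.mono _ _ Finset.subset_union_right) w xs
    change (_ → _) ↔ (_ → _)
    rw [e1, e2]
  | @all n φ h1 =>
    obtain ⟨S, hS⟩ := h1
    refine ⟨S, fun σ hσ hU w xs => ?_⟩
    change (∀ x, _) ↔ (∀ x, _)
    have h3 : ∀ x : ℕ, (Fin.snoc (σ ∘ xs) (σ x) : Fin (n + 1) → ℕ) = σ ∘ (Fin.snoc xs x) := by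
      intro x
      funext i
      refine Fin.lastCases ?_ (fun j => ?_) i
      · simp
      · simp
    constructor
    · intro h x
      obtain ⟨x, rfl⟩ := hσ.2 x
      rw [h3]
      exact (hS σ hσ hU w _).1 (h x)
    · intro h x
      rw [hS σ hσ hU w _, ← h3]
      exact h (σ x)

/-- A map which agrees on each finite tuple with bijections respecting arbitrary finite sets of
symbols is elementary. -/
theorem elem_of_local (j : ℕ → ℕ)
    (h : ∀ (S : Finset ℕ) (n : ℕ) (w : Fin n → ℕ), ∃ σ : ℕ → ℕ, Function.Bijective σ ∧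
      Resp u v S σ ∧ σ ∘ w = j ∘ w) :
    Nonempty (@FirstOrder.Language.ElementaryEmbedding (Lg a) ℕ ℕ (St a u) (St a v)) := by
  refine ⟨@FirstOrder.Language.ElementaryEmbedding.mk (Lg a) ℕ ℕ (St a u) (St a v) j ?_⟩
  intro n φ w
  obtain ⟨S, hS⟩ := exists_finset u v φ
  obtain ⟨σ, hσ, h1, h2⟩ := h S n w
  rw [← h2]
  unfold FirstOrder.Language.Formula.Realize
  have h3 := hS σ hσ h1 w (@default (Fin 0 → ℕ) Unique.instInhabited)
  have e : σ ∘ (@default (Fin 0 → ℕ) Unique.instInhabited) =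
      @default (Fin 0 → ℕ) Unique.instInhabited := Subsingleton.elim _ _
  rw [e] at h3
  exact h3.symm

/-- An elementary embedding preserves the relations. -/
theorem rel_of_elem
    (J : @FirstOrder.Language.ElementaryEmbedding (Lg a) ℕ ℕ (St a u) (St a v)) :
    ∃ j : ℕ → ℕ, ∀ (i : ℕ) (xs : Fin (a i) → ℕ), u i xs = true → v i (j ∘ xs) = true := by
  refine ⟨@FirstOrder.Language.ElementaryEmbedding.toFun (Lg a) ℕ ℕ (St a u) (St a v) J, ?_⟩
  intro i xs h
  have := (@FirstOrder.Language.ElementaryEmbedding.map_rel (Lg a) ℕ ℕ (St a u) (St a v) J (a i)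
    ⟨i, rfl⟩ xs).2 h
  exact this

end

end Pool.Agent.U109.EE
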