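import Mathlib
import Pool.Agent.H579R3.Epi3
import Pool.Agent.U109.EE.Lang

set_option autoImplicit false

open Set

namespace Pool.Agent.U109.EE

open Pool.Agent.H579R3.Epi (K IsAuto TLe Lam N Good Enc Valid evalAt ent last cd)

/-! ## Labelled trees and the structures coding them -/

/-- nodes of the tree, and the points of the clouds attached to a node and a label; the points of
a cloud have a height, which may be infinite (`none`) -/
inductive DD : Type
  | nd (p : List ℤ) : DD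
  | el (p : List ℤ) (κ : K) (h : Option ℕ) : DD

/-- a code for the elements of `DD` -/
def DD.code : DD → List ℤ × Option (K × Option ℕ)
  | .nd p => (p, none)
  | .el p κ h => (p, some (κ, h))

lemma DD.code_injective : Function.Injective DD.code := by
  intro a b h
  cases a <;> cases b <;> simp_all [DD.code]

instance : Countable DD := DD.code_injective.countable

open DD

lemma nd_inj {p q : List ℤ} (h : nd p = nd q) : p = q := by simpa using h

instance : Infinite DD := Infinite.of_injective nd fun _ _ h => nd_inj h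

lemma DD_cases (d : DD) : (∃ p, d = nd p) ∨ ∃ p κ h, d = el p κ h := by
  rcases d with p | ⟨p, κ, h⟩
  · exact Or.inl ⟨p, rfl⟩
  · exact Or.inr ⟨p, κ, h, rfl⟩

/-- the height `h` is at least `m` -/
def hg (m : ℕ) (h : Option ℕ) : Prop := ∀ k, h = some k → m ≤ k

lemma hg_none (m : ℕ) : hg m none := fun k h => by simp at h

lemma hg_some (m k : ℕ) : hg m (some k) ↔ m ≤ k :=
  ⟨fun h => h k rfl, fun h k' hk => by
    obtain rfl : k = k' := by simpa using hk
    exact h⟩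

lemma hg_all {h : Option ℕ} (H : ∀ m, hg m h) : h = none := by
  rcases h with _ | k
  · rfl
  · have := (hg_some (k + 1) k).1 (H _)
    omega

lemma hg_ext {h h' : Option ℕ} (H : ∀ m, hg m h ↔ hg m h') : h = h' := by
  rcases h with _ | k <;> rcases h' with _ | k'
  · rfl
  · exact (hg_all fun m => (H m).1 (hg_none m)).symm
  · exact hg_all fun m => (H m).2 (hg_none m)
  · have h1 := (H k).1 ((hg_some k k).2 le_rfl)
    have h2 := (H k').2 ((hg_some k' k').2 le_rfl)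
    rw [hg_some] at h1 h2
    rw [le_antisymm h1 h2]

/-- the symbols -/
abbrev Sy : Type := Bool ⊕ (K × ℕ)

/-- an enumeration of the symbols -/
noncomputable def dec : ℕ → Sy := Classical.choose (exists_surjective_nat Sy)

lemma dec_surj : Function.Surjective dec := Classical.choose_spec (exists_surjective_nat Sy)

/-- the relations: the root, the children of a node, the points of the clouds of given height -/
def rl : Sy → DD → DD → Prop
  | .inl true, a, _ => a = nd []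
  | .inl false, a, b => ∃ p k, a = nd p ∧ b = nd (k :: p)
  | .inr q, a, b => ∃ p h, a = nd p ∧ b = el p q.1 h ∧ hg q.2 h

/-- the arities -/
abbrev ar : ℕ → ℕ := fun _ => 2

open Classical in
/-- the structure on `ℕ` pulled back along `π` -/
noncomputable def pl (π : ℕ → DD) : Cd ar := fun i xs => decide (rl (dec i) (π (xs 0)) (π (xs 1)))

lemma pl_iff (π : ℕ → DD) (i : ℕ) (xs : Fin (ar i) → ℕ) :
    pl π i xs = true ↔ rl (dec i) (π (xs 0)) (π (xs 1)) := by
  classical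
  unfold pl
  rw [decide_eq_true_iff]

/-- the points which occur in the structure of the labelling `Λ` -/
def Ad (Λ : List ℤ → Set K) (d : DD) : Prop := ∀ p κ, d = el p κ none → κ ∈ Λ p

lemma Ad_nd (Λ : List ℤ → Set K) (p : List ℤ) : Ad Λ (nd p) := fun q κ h => by simp at h

lemma Ad_some (Λ : List ℤ → Set K) (p : List ℤ) (κ : K) (k : ℕ) : Ad Λ (el p κ (some k)) :=
  fun q κ h => by simp at h

lemma Ad_none (Λ : List ℤ → Set K) (p : List ℤ) (κ : K) : Ad Λ (el p κ none) ↔ κ ∈ Λ p := by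
  constructor
  · intro h
    exact h p κ rfl
  · intro h q κ' e
    simp only [el.injEq, and_true] at e
    rw [← e.1, ← e.2]
    exact h

/-- `π` enumerates the points which occur -/
def Fb (Λ : List ℤ → Set K) (π : ℕ → DD) : Prop :=
  Function.Injective π ∧ ∀ d, Ad Λ d ↔ ∃ n, π n = d

/-- the weak order of labelled trees -/
def TW (Λ Λ' : List ℤ → Set K) : Prop :=
  ∃ g : List ℤ → List ℤ, g [] = [] ∧ (∀ k p, ∃ k', g (k :: p) = k' :: g p) ∧ ∀ p, Λ p ⊆ Λ' (g p)

section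

variable {Λ Λ' : List ℤ → Set K} {π π' : ℕ → DD}

/-- maps preserving the relations come from maps of trees -/
lemma exists_g {j : ℕ → ℕ} (hF : Fb Λ π)
    (hj : ∀ (s : Sy) (x y : ℕ), rl s (π x) (π y) → rl s (π' (j x)) (π' (j y))) :
    ∃ g : List ℤ → List ℤ, (∀ n p, π n = nd p → π' (j n) = nd (g p)) ∧ g [] = [] ∧
      (∀ k p, ∃ k', g (k :: p) = k' :: g p) ∧
      ∀ n p κ h, π n = el p κ h → ∃ h', π' (j n) = el (g p) κ h' ∧ ∀ m, hg m h → hg m h' := by
  have h1 : ∀ p, ∃ p', ∀ n, π n = nd p → π' (j n) = nd p' := by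
    intro p
    obtain ⟨n, hn⟩ := (hF.2 _).1 (Ad_nd Λ p)
    obtain ⟨m, hm⟩ := (hF.2 _).1 (Ad_nd Λ (0 :: p))
    have h2 : rl (.inl false) (π n) (π m) := ⟨p, 0, hn, hm⟩
    obtain ⟨p', k', h3, h4⟩ := hj _ _ _ h2
    refine ⟨p', fun n' hn' => ?_⟩
    have : n' = n := hF.1 (by rw [hn, hn'])
    rw [this, h3]
  choose g hg1 using h1
  have hE : ∀ k p, ∃ k', g (k :: p) = k' :: g p := by
    intro k p
    obtain ⟨n, hn⟩ := (hF.2 _).1 (Ad_nd Λ p)
    obtain ⟨m, hm⟩ := (hF.2 _).1 (Ad_nd Λ (k :: p))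
    have h2 : rl (.inl false) (π n) (π m) := ⟨p, k, hn, hm⟩
    obtain ⟨p', k', h3, h4⟩ := hj _ _ _ h2
    rw [hg1 p n hn] at h3
    rw [hg1 _ m hm] at h4
    exact ⟨k', by rw [nd_inj h4, nd_inj h3]⟩
  refine ⟨g, fun n p hn => hg1 p n hn, ?_, hE, ?_⟩
  · obtain ⟨n, hn⟩ := (hF.2 _).1 (Ad_nd Λ [])
    have h2 : rl (.inl true) (π n) (π n) := hn
    have h3 : π' (j n) = nd [] := hj _ _ _ h2
    rw [hg1 [] n hn] at h3
    exact nd_inj h3
  · intro n p κ h hn
    obtain ⟨m, hm⟩ := (hF.2 _).1 (Ad_nd Λ p)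
    have h2 : ∀ i, hg i h → ∃ h', π' (j n) = el (g p) κ h' ∧ hg i h' := by
      intro i hi
      have h3 : rl (.inr (κ, i)) (π m) (π n) := ⟨p, h, hm, hn, hi⟩
      obtain ⟨p', h', h4, h5, h6⟩ := hj _ _ _ h3
      rw [hg1 p m hm] at h4
      rw [← nd_inj h4] at h5
      exact ⟨h', h5, h6⟩
    obtain ⟨h', h3, -⟩ := h2 0 (fun k _ => Nat.zero_le k)
    refine ⟨h', h3, fun i hi => ?_⟩
    obtain ⟨h'', h4, h5⟩ := h2 i hi
    rw [h3] at h4
    simp only [el.injEq, true_and] at h4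
    rw [h4]
    exact h5

theorem TW_of_elem (hF : Fb Λ π) (hF' : Fb Λ' π')
    (h : Nonempty (@FirstOrder.Language.ElementaryEmbedding (Lg ar) ℕ ℕ (St ar (pl π))
      (St ar (pl π')))) : TW Λ Λ' := by
  obtain ⟨J⟩ := h
  obtain ⟨j, hj⟩ := rel_of_elem _ _ J
  have hj' : ∀ (s : Sy) (x y : ℕ), rl s (π x) (π y) → rl s (π' (j x)) (π' (j y)) := by
    intro s x y h
    obtain ⟨i, rfl⟩ := dec_surj s
    have := hj i ![x, y] ((pl_iff _ _ _).2 h)
    exact (pl_iff _ _ _).1 this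
  obtain ⟨g, h1, h2, h3, h4⟩ := exists_g hF hj'
  refine ⟨g, h2, h3, fun p κ hκ => ?_⟩
  obtain ⟨n, hn⟩ := (hF.2 _).1 ((Ad_none Λ p κ).2 hκ)
  obtain ⟨h', h5, h6⟩ := h4 n p κ none hn
  have h7 := hg_all fun m => h6 m (hg_none m)
  rw [h7] at h5
  exact (Ad_none Λ' _ _).1 ((hF'.2 _).2 ⟨_, h5⟩)

/-- the map of `DD` induced by a map of the tree -/
def mp (g : List ℤ → List ℤ) : DD → DD
  | .nd p => nd (g p)
  | .el p κ h => el (g p) κ h

lemma lemE (hF : Fb Λ π) (hF' : Fb Λ' π') (h : pl π = pl π') :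
    ∃ g, IsAuto g ∧ (∀ n, π' n = mp g (π n)) ∧ ∀ p, Λ p = Λ' (g p) := by
  have hj : ∀ (s : Sy) (x y : ℕ), rl s (π x) (π y) ↔ rl s (π' x) (π' y) := by
    intro s x y
    obtain ⟨i, rfl⟩ := dec_surj s
    have h1 := pl_iff π i ![x, y]
    have h2 := pl_iff π' i ![x, y]
    rw [h] at h1
    exact (h1.symm.trans h2)
  obtain ⟨g, h1, h2, h3, h4⟩ := exists_g (j := fun n => n) hF (fun s x y h => (hj s x y).1 h)
  obtain ⟨g', h1', h2', h3', h4'⟩ := exists_g (j := fun n => n) hF' (fun s x y h => (hj s x y).2 h)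
  have e1 : ∀ p, g' (g p) = p := by
    intro p
    obtain ⟨n, hn⟩ := (hF.2 _).1 (Ad_nd Λ p)
    have := h1' n _ (h1 n p hn)
    rw [hn] at this
    exact (nd_inj this).symm
  have e2 : ∀ p, g (g' p) = p := by
    intro p
    obtain ⟨n, hn⟩ := (hF'.2 _).1 (Ad_nd Λ' p)
    have := h1 n _ (h1' n p hn)
    rw [hn] at this
    exact (nd_inj this).symm
  have hel : ∀ n p κ h, π n = el p κ h → π' n = el (g p) κ h := by
    intro n p κ h hn
    obtain ⟨h', h5, h6⟩ := h4 n p κ h hn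
    obtain ⟨h'', h7, h8⟩ := h4' n (g p) κ h' h5
    rw [hn, e1] at h7
    simp only [el.injEq, true_and] at h7
    subst h7
    have : h = h' := hg_ext fun m => ⟨h6 m, h8 m⟩
    rw [h5, ← this]
  have hπ : ∀ n, π' n = mp g (π n) := by
    intro n
    rcases DD_cases (π n) with ⟨p, hn⟩ | ⟨p, κ, h, hn⟩
    · rw [hn, h1 n p hn]; rfl
    · rw [hn, hel n p κ h hn]; rfl
  refine ⟨g, ⟨⟨?_, ?_⟩, h2, h3⟩, hπ, ?_⟩
  · intro p q hpq
    rw [← e1 p, hpq, e1]
  · intro p
    exact ⟨g' p, e2 p⟩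
  · intro p
    ext κ
    rw [← Ad_none Λ p κ, ← Ad_none Λ' (g p) κ, hF.2, hF'.2]
    constructor
    · rintro ⟨n, hn⟩
      exact ⟨n, by rw [hπ, hn]; rfl⟩
    · rintro ⟨n, hn⟩
      refine ⟨n, ?_⟩
      rcases DD_cases (π n) with ⟨q, hq⟩ | ⟨q, κ', h, hq⟩
      · have := h1 n q hq
        rw [hn] at this
        simp at this
      · have := hel n q κ' h hq
        rw [hn] at this
        simp only [el.injEq] at this
        obtain ⟨a1, a2, a3⟩ := this
        have a4 : p = q := by rw [← e1 p, a1, e1]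
        rw [hq, a4, ← a2, ← a3]

/-! ### From maps of trees to elementary embeddings -/

/-- the shift of heights with parameter `M` -/
def sh (M : ℕ) : Option ℕ → Option ℕ
  | none => none
  | some h => if h < M then some h else if h = M then none else some (h - 1)

lemma hg_sh {M m : ℕ} (hm : m ≤ M) (h : Option ℕ) : hg m (sh M h) ↔ hg m h := by
  rcases h with _ | h
  · exact Iff.rfl
  · simp only [sh]
    split_ifs with h1 h2
    · exact Iff.rfl
    · rw [hg_some]
      exact ⟨fun _ => by omega, fun _ => hg_none _⟩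
    · rw [hg_some, hg_some]
      omega

lemma sh_inj {M h h' : ℕ} (H : sh M (some h) = sh M (some h')) : h = h' := by
  simp only [sh] at H
  split_ifs at H with h1 h2 h3 h4 h5
  all_goals (simp only [Option.some.injEq] at H; omega)

lemma sh_surj (M : ℕ) (h : Option ℕ) : ∃ k, sh M (some k) = h := by
  rcases h with _ | h
  · exact ⟨M, by simp [sh]⟩
  · by_cases h1 : h < M
    · exact ⟨h, by simp [sh, h1]⟩
    · refine ⟨h + 1, ?_⟩
      simp only [sh]
      rw [if_neg (by omega), if_neg (by omega)]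
      simp

open Classical in
/-- the local approximations of the embedding -/
noncomputable def loc (Λ Λ' : List ℤ → Set K) (g : List ℤ → List ℤ) (M : ℕ) : DD → DD
  | .nd p => nd (g p)
  | .el p κ h => if κ ∉ Λ p ∧ κ ∈ Λ' (g p) then el (g p) κ (sh M h) else el (g p) κ h

lemma loc_nd (g : List ℤ → List ℤ) (M : ℕ) (p : List ℤ) :
    loc Λ Λ' g M (nd p) = nd (g p) := rfl

open Classical in
lemma loc_def (g : List ℤ → List ℤ) (M : ℕ) (p : List ℤ) (κ : K) (h : Option ℕ) :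
    loc Λ Λ' g M (el p κ h) =
      if κ ∉ Λ p ∧ κ ∈ Λ' (g p) then el (g p) κ (sh M h) else el (g p) κ h := rfl

lemma loc_el (g : List ℤ → List ℤ) (M : ℕ) (p : List ℤ) (κ : K) (h : Option ℕ) :
    ∃ h', loc Λ Λ' g M (el p κ h) = el (g p) κ h' ∧ (∀ m ≤ M, (hg m h' ↔ hg m h)) := by
  classical
  rw [loc_def]
  split_ifs with h1
  · exact ⟨_, rfl, fun m hm => hg_sh hm h⟩
  · exact ⟨_, rfl, fun m _ => Iff.rfl⟩

lemma loc_inj {g : List ℤ → List ℤ} (hg1 : Function.Injective g) (M : ℕ) {d d' : DD}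
    (hd : Ad Λ d) (hd' : Ad Λ d') (h : loc Λ Λ' g M d = loc Λ Λ' g M d') : d = d' := by
  classical
  rcases DD_cases d with ⟨p, rfl⟩ | ⟨p, κ, h1, rfl⟩ <;>
    rcases DD_cases d' with ⟨q, rfl⟩ | ⟨q, κ', h2, rfl⟩
  · rw [loc_nd, loc_nd] at h
    rw [hg1 (nd_inj h)]
  · obtain ⟨h', e, -⟩ := loc_el (Λ := Λ) (Λ' := Λ') g M q κ' h2
    rw [loc_nd, e] at h
    simp at h
  · obtain ⟨h', e, -⟩ := loc_el (Λ := Λ) (Λ' := Λ') g M p κ h1
    rw [loc_nd, e] at h
    simp at h
  · have e0 : p = q ∧ κ = κ' := by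
      obtain ⟨h', e, -⟩ := loc_el (Λ := Λ) (Λ' := Λ') g M p κ h1
      obtain ⟨h'', e', -⟩ := loc_el (Λ := Λ) (Λ' := Λ') g M q κ' h2
      rw [e, e'] at h
      simp only [el.injEq] at h
      exact ⟨hg1 h.1, h.2.1⟩
    obtain ⟨rfl, rfl⟩ := e0
    rw [loc_def, loc_def] at h
    split_ifs at h with h3
    · simp only [el.injEq, true_and] at h
      rcases h1 with _ | h1
      · exact absurd ((Ad_none _ _ _).1 hd) h3.1
      · rcases h2 with _ | h2
        · exact absurd ((Ad_none _ _ _).1 hd') h3.1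
        · rw [sh_inj h]
    · simp only [el.injEq, true_and] at h
      rw [h]

lemma loc_surj {g : List ℤ → List ℤ} (hg2 : Function.Surjective g) (M : ℕ)
    {d : DD} (hd : Ad Λ' d) :
    ∃ d', Ad Λ d' ∧ loc Λ Λ' g M d' = d := by
  classical
  rcases DD_cases d with ⟨p, rfl⟩ | ⟨p, κ, h1, rfl⟩
  · obtain ⟨q, rfl⟩ := hg2 p
    exact ⟨nd q, Ad_nd _ _, rfl⟩
  · obtain ⟨q, rfl⟩ := hg2 p
    by_cases h3 : κ ∉ Λ q ∧ κ ∈ Λ' (g q)
    · obtain ⟨k, hk⟩ := sh_surj M h1
      refine ⟨el q κ (some k), Ad_some _ _ _ _, ?_⟩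
      rw [loc_def, if_pos h3, hk]
    · refine ⟨el q κ h1, ?_, ?_⟩
      · rcases h1 with _ | h1
        · rw [Ad_none] at hd ⊢
          by_contra h4
          exact h3 ⟨h4, hd⟩
        · exact Ad_some _ _ _ _
      · rw [loc_def, if_neg h3]

lemma loc_Ad {g : List ℤ → List ℤ} (hΛ : ∀ p, Λ p ⊆ Λ' (g p)) (M : ℕ) {d : DD} (hd : Ad Λ d) :
    Ad Λ' (loc Λ Λ' g M d) := by
  classical
  rcases DD_cases d with ⟨p, rfl⟩ | ⟨p, κ, h1, rfl⟩
  · exact Ad_nd _ _
  · rw [loc_def]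
    split_ifs with h3
    · rcases h : sh M h1 with _ | k
      · exact (Ad_none _ _ _).2 h3.2
      · exact Ad_some _ _ _ _
    · rcases h1 with _ | h1
      · rw [Ad_none] at hd ⊢
        exact hΛ _ hd
      · exact Ad_some _ _ _ _

/-- the local approximations respect the symbols with heights up to `M` -/
lemma rl_loc {g : List ℤ → List ℤ} (hg : IsAuto g) {M : ℕ} {s : Sy}
    (hs : ∀ q, s = .inr q → q.2 ≤ M) (a b : DD) :
    rl s (loc Λ Λ' g M a) (loc Λ Λ' g M b) ↔ rl s a b := by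
  rcases s with (_ | _) | ⟨κ, m⟩
  · constructor
    · rintro ⟨p, k, h1, h2⟩
      rcases DD_cases a with ⟨a, rfl⟩ | ⟨a, κ, h, rfl⟩
      · rcases DD_cases b with ⟨b, rfl⟩ | ⟨b, κ, h, rfl⟩
        · rw [loc_nd] at h1 h2
          have e1 := nd_inj h1
          have e2 := nd_inj h2
          rcases b with _ | ⟨k', b⟩
          · rw [hg.nil] at e2
            exact absurd e2 (by simp)
          · obtain ⟨k'', e3⟩ := hg.cons k' b
            rw [e3] at e2
            have e4 := (List.cons.inj e2).2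
            rw [← e1] at e4
            have e5 := hg.bij.1 e4
            exact ⟨a, k', rfl, by rw [e5]⟩
        · obtain ⟨h', e, -⟩ := loc_el (Λ := Λ) (Λ' := Λ') g M b κ h
          rw [e] at h2
          simp at h2
      · obtain ⟨h', e, -⟩ := loc_el (Λ := Λ) (Λ' := Λ') g M a κ h
        rw [e] at h1
        simp at h1
    · rintro ⟨p, k, rfl, rfl⟩
      obtain ⟨k', e⟩ := hg.cons k p
      exact ⟨g p, k', rfl, by rw [loc_nd, e]⟩
  · change loc Λ Λ' g M a = nd [] ↔ a = nd []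
    rcases DD_cases a with ⟨a, rfl⟩ | ⟨a, κ, h, rfl⟩
    · rw [loc_nd]
      constructor
      · intro h
        have := nd_inj h
        rw [← hg.nil] at this
        rw [hg.bij.1 this]
      · intro h
        rw [nd_inj h, hg.nil]
    · obtain ⟨h', e, -⟩ := loc_el (Λ := Λ) (Λ' := Λ') g M a κ h
      rw [e]
      simp
  · have hm : m ≤ M := hs _ rfl
    constructor
    · rintro ⟨p, h, h1, h2, h3⟩
      rcases DD_cases a with ⟨a, rfl⟩ | ⟨a, κ', h', rfl⟩
      · rcases DD_cases b with ⟨b, rfl⟩ | ⟨b, κ', h', rfl⟩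
        · rw [loc_nd] at h2
          simp at h2
        · obtain ⟨h'', e, he⟩ := loc_el (Λ := Λ) (Λ' := Λ') g M b κ' h'
          rw [e] at h2
          rw [loc_nd] at h1
          simp only [el.injEq] at h2
          have e1 := nd_inj h1
          have e2 : a = b := hg.bij.1 (by rw [e1, h2.1])
          refine ⟨a, h', rfl, ?_, ?_⟩
          · rw [← e2, h2.2.1]
          · rw [← he m hm, h2.2.2]
            exact h3
      · obtain ⟨h', e, -⟩ := loc_el (Λ := Λ) (Λ' := Λ') g M a κ' h'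
        rw [e] at h1
        simp at h1
    · rintro ⟨p, h, rfl, rfl, h3⟩
      obtain ⟨h'', e, he⟩ := loc_el (Λ := Λ) (Λ' := Λ') g M p κ h
      exact ⟨g p, h'', rfl, e, (he m hm).2 h3⟩

/-- the height bound of a point -/
def hb : DD → ℕ
  | .nd _ => 0
  | .el _ _ none => 0
  | .el _ _ (some k) => k + 1

lemma loc_eq_mp {g : List ℤ → List ℤ} {M : ℕ} {d : DD} (hd : Ad Λ d) (hM : hb d ≤ M) :
    loc Λ Λ' g M d = mp g d := by
  classical
  rcases DD_cases d with ⟨p, rfl⟩ | ⟨p, κ, h1, rfl⟩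
  · rfl
  · rw [loc_def]
    split_ifs with h3
    · rcases h1 with _ | k
      · exact absurd ((Ad_none _ _ _).1 hd) h3.1
      · simp only [hb] at hM
        simp only [mp, sh]
        rw [if_pos (by omega)]
    · rfl

theorem elem_of_TLe (hF : Fb Λ π) (hF' : Fb Λ' π') (h : TLe Λ Λ') :
    Nonempty (@FirstOrder.Language.ElementaryEmbedding (Lg ar) ℕ ℕ (St ar (pl π))
      (St ar (pl π'))) := by
  classical
  obtain ⟨g, hg, hΛ⟩ := h
  have hAd : ∀ n, Ad Λ (π n) := fun n => (hF.2 _).2 ⟨n, rfl⟩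
  have hmp : ∀ n, Ad Λ' (mp g (π n)) := by
    intro n
    rw [← loc_eq_mp (Λ' := Λ') (g := g) (hAd n) le_rfl]
    exact loc_Ad hΛ _ (hAd n)
  choose j hj using fun n => (hF'.2 _).1 (hmp n)
  apply elem_of_local _ _ j
  intro S n w
  -- the bound for the heights
  obtain ⟨M, hM1, hM2⟩ : ∃ M : ℕ, (∀ i ∈ S, ∀ q, dec i = .inr q → q.2 ≤ M) ∧
      ∀ i, hb (π (w i)) ≤ M := by
    let f : ℕ → ℕ := fun i => match dec i with
      | .inl _ => 0
      | .inr q => q.2
    refine ⟨S.sup f + Finset.univ.sup (fun i => hb (π (w i))), ?_, ?_⟩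
    · intro i hi q hq
      have h1 : f i ≤ S.sup f := Finset.le_sup hi
      have h2 : f i = q.2 := by simp only [f, hq]
      omega
    · intro i
      have h1 : hb (π (w i)) ≤ Finset.univ.sup (fun i => hb (π (w i))) :=
        Finset.le_sup (f := fun i => hb (π (w i))) (Finset.mem_univ i)
      omega
  choose σ hσ using fun n => (hF'.2 _).1 (loc_Ad (Λ := Λ) (Λ' := Λ') hΛ M (hAd n))
  refine ⟨σ, ⟨?_, ?_⟩, ?_, ?_⟩
  · intro x y hxy
    have h1 := hσ x
    rw [hxy, hσ y] at h1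
    exact (hF.1 (loc_inj hg.bij.1 M (hAd y) (hAd x) h1)).symm
  · intro y
    obtain ⟨d', h1, h2⟩ := loc_surj (Λ := Λ) (Λ' := Λ') hg.bij.2 M ((hF'.2 _).2 ⟨y, rfl⟩)
    obtain ⟨x, rfl⟩ := (hF.2 _).1 h1
    refine ⟨x, hF'.1 ?_⟩
    rw [hσ, h2]
  · intro i hi xs
    have h1 : rl (dec i) (π' ((σ ∘ xs) 0)) (π' ((σ ∘ xs) 1)) ↔ rl (dec i) (π (xs 0)) (π (xs 1)) := by
      change rl (dec i) (π' (σ (xs 0))) (π' (σ (xs 1))) ↔ _
      rw [hσ, hσ]
      exact rl_loc hg (hM1 i hi) _ _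
    rw [Bool.eq_iff_iff, pl_iff, pl_iff]
    exact h1.symm
  · funext i
    apply hF'.1
    change π' (σ (w i)) = π' (j (w i))
    rw [hσ, hj]
    exact loc_eq_mp (hAd _) (hM2 i)

end

end Pool.Agent.U109.EE
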