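import Mathlib
import Pool.Agent.U109.EE.Tree

set_option autoImplicit false

open Set MeasureTheory

namespace Pool.Agent.U109.EE

open Pool.Agent.H579R3.Epi (K IsAuto TLe Lam N Good Enc Valid evalAt ent last cd br br_lam Good.mono
  Good.congr evalAt_cons last_congr tree_map rigid measurableSet_lam)

section

variable {α β : N → N}

open Pool.Agent.H579R3.Epi in
/-- the relation with witnesses `w`, where `α w` is related to `β w` -/
theorem rel_of_treeW {x y : N} (hα : Continuous α) (hβ : Continuous β)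
    (htrans : ∀ u v t w w', α w = u → β w = v → α w' = v → β w' = t →
      ∃ w'', α w'' = u ∧ β w'' = t)
    (h : TW (Lam α β x) (Lam α β y)) : x = y ∨ ∃ w, α w = x ∧ β w = y := by
  obtain ⟨g, hgn, hgc, hL⟩ := h
  let q : ℕ → List ℤ := fun n => g (br x n)
  have hex : ∀ n, ∃ k, q (n + 1) = k :: q n := fun n => hgc _ _
  choose k hk using hex
  have hl : ∀ n, (q n).length = n := by
    intro n
    induction n with
    | zero =>
      change (g []).length = 0
      rw [hgn]
      rfl
    | succ n ih => rw [hk, List.length_cons, ih]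
  have hmem : ∀ n, Valid α β y (q (n + 1)) ∧ x n = (ent (k n)).1 := by
    intro n
    have h1 := hL _ (br_lam (α := α) (β := β) x n)
    change _ ∈ Lam α β y (q (n + 1)) at h1
    rw [hk, Lam_inr] at h1
    rw [hk]
    exact h1
  -- the limit chain
  set m := (ent (k 0)).2.length with hm
  let L : List (N × N) := List.ofFn fun j : Fin m =>
    ((fun i => ((ent (k i)).2.getD j (0, 0)).1), (fun i => ((ent (k i)).2.getD j (0, 0)).2))
  have hlen : ∀ n, (ent (k n)).2.length = m := by
    intro n
    obtain ⟨⟨a, l, -, h2, -⟩, -⟩ := hmem n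
    have h3 := Enc.get hk hl h2 n (by omega)
    have h4 := Enc.get hk hl h2 0 (by omega)
    rw [hm, h3, h4]
    simp [evalAt]
  have hev : ∀ n, evalAt x L n = ent (k n) := by
    intro n
    have h1 : (L.map fun q => (q.1 n, q.2 n)) = (ent (k n)).2 := by
      apply List.ext_getElem
      · simp [L, hlen]
      · intro j h2 h3
        simp [L, List.getElem?_eq_getElem h3]
    rw [evalAt, h1, (hmem n).2]
  have hgood : ∀ n, Good α β n x L ∧ ∀ i < n, last x L i = y i := by
    intro n
    rcases n with _ | n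
    · obtain ⟨⟨a, l, h1, h2, -⟩, -⟩ := hmem 0
      refine ⟨?_, fun i hi => by omega⟩
      have h3 := Enc.get hk hl h2 0 (by omega)
      have h4 := hev 0
      rw [h3] at h4
      have h5 : l.length = L.length := by
        have := congrArg (fun e => e.2.length) h4
        simp only [evalAt, List.length_map] at this
        exact this.symm
      exact (h1.mono (Nat.zero_le _)).congr h5 (fun i hi => by omega)
    · obtain ⟨⟨a, l, h1, h2, h2'⟩, -⟩ := hmem n
      have h3 := Enc.get hk hl h2
      rw [hl] at h1 h2'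
      have h5 : l.length = L.length := by
        have h4 := hev 0
        rw [h3 0 (by omega)] at h4
        have := congrArg (fun e => e.2.length) h4
        simp only [evalAt, List.length_map] at this
        exact this.symm
      have h6 : ∀ i < n + 1, evalAt a l i = evalAt x L i := by
        intro i hi
        rw [hev, h3 i hi]
      refine ⟨h1.congr h5 h6, fun i hi => ?_⟩
      rw [← last_congr (h6 i hi)]
      exact h2' i hi
  have hlast : last x L = y := by
    funext i
    exact (hgood (i + 1)).2 i (by omega)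
  -- closedness
  have hclosed : ∀ (a b w : N), (∀ n, ∃ w' : N, ∀ i < n, α w' i = a i ∧ β w' i = b i ∧ w' i = w i) →
      α w = a ∧ β w = b := by
    intro a b w h1
    choose w' hw' using h1
    have hlim : Filter.Tendsto w' Filter.atTop (nhds w) := by
      rw [tendsto_pi_nhds]
      intro i
      apply tendsto_const_nhds.congr'
      filter_upwards [Filter.eventually_gt_atTop i] with n hn
      exact ((hw' n i hn).2.2).symm
    constructor
    · funext i
      have h2 := (tendsto_pi_nhds.1 ((hα.tendsto w).comp hlim)) i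
      have h3 : Filter.Tendsto (fun n => (α ∘ w') n i) Filter.atTop (nhds (a i)) := by
        apply tendsto_const_nhds.congr'
        filter_upwards [Filter.eventually_gt_atTop i] with n hn
        exact ((hw' n i hn).1).symm
      exact tendsto_nhds_unique h2 h3
    · funext i
      have h2 := (tendsto_pi_nhds.1 ((hβ.tendsto w).comp hlim)) i
      have h3 : Filter.Tendsto (fun n => (β ∘ w') n i) Filter.atTop (nhds (b i)) := by
        apply tendsto_const_nhds.congr'
        filter_upwards [Filter.eventually_gt_atTop i] with n hn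
        exact ((hw' n i hn).2.1).symm
      exact tendsto_nhds_unique h2 h3
  have hreach : ∀ l : List (N × N), (∀ n, Good α β n x l) →
      x = last x l ∨ ∃ w, α w = x ∧ β w = last x l := by
    intro l
    induction l with
    | nil => intro _; exact Or.inl rfl
    | cons q l ih =>
      intro h1
      have h2 := ih fun n => (h1 n).2
      obtain ⟨h3, h4⟩ := hclosed (last x l) q.2 q.1 fun n => (h1 n).1
      rcases h2 with h2 | ⟨w, h5, h6⟩
      · exact Or.inr ⟨q.1, by rw [h3, ← h2], h4⟩
      · obtain ⟨w'', h7, h8⟩ := htrans _ _ _ _ _ h5 h6 h3 h4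
        exact Or.inr ⟨w'', h7, h8⟩
  have := hreach L fun n => (hgood n).1
  rwa [hlast] at this


end

instance : MeasurableSpace DD := ⊤
instance : DiscreteMeasurableSpace DD := ⟨fun _ => trivial⟩

lemma measurable_pl : Measurable pl := by
  classical
  refine measurable_pi_lambda _ fun i => measurable_pi_lambda _ fun xs => ?_
  have h1 : Measurable (fun π : ℕ → DD => (π (xs 0), π (xs 1))) :=
    (measurable_pi_apply _).prodMk (measurable_pi_apply _)
  exact (Measurable.of_discrete (f := fun r : DD × DD => decide (rl (dec i) r.1 r.2))).comp h1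

section

variable {X : Type} [MeasurableSpace X] (Λ : X → List ℤ → Set K)

lemma measurableSet_Ad (hΛ : ∀ p κ, MeasurableSet {x : X | κ ∈ Λ x p}) (d : DD) :
    MeasurableSet {x : X | Ad (Λ x) d} := by
  rcases DD_cases d with ⟨p, rfl⟩ | ⟨p, κ, h, rfl⟩
  · have : {x : X | Ad (Λ x) (DD.nd p)} = univ := by
      ext x
      exact ⟨fun _ => trivial, fun _ => Ad_nd _ _⟩
    rw [this]
    exact MeasurableSet.univ
  · rcases h with _ | k
    · have : {x : X | Ad (Λ x) (DD.el p κ none)} = {x : X | κ ∈ Λ x p} := by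
        ext x
        exact Ad_none _ _ _
      rw [this]
      exact hΛ p κ
    · have : {x : X | Ad (Λ x) (DD.el p κ (some k))} = univ := by
        ext x
        exact ⟨fun _ => trivial, fun _ => Ad_some _ _ _ _⟩
      rw [this]
      exact MeasurableSet.univ

lemma measurableSet_Fb (hΛ : ∀ p κ, MeasurableSet {x : X | κ ∈ Λ x p}) :
    MeasurableSet {q : (ℕ → DD) × X | Fb (Λ q.2) q.1} := by
  have hn : ∀ (n : ℕ) (d : DD), MeasurableSet {q : (ℕ → DD) × X | q.1 n = d} := by
    intro n d
    have h1 : Measurable (fun q : (ℕ → DD) × X => q.1 n) := (measurable_pi_apply n).comp measurable_fst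
    exact h1 (MeasurableSet.of_discrete (s := {d}))
  have hJ : ∀ d, MeasurableSet {q : (ℕ → DD) × X | Ad (Λ q.2) d} := fun d =>
    measurable_snd (measurableSet_Ad Λ hΛ d)
  have hI : MeasurableSet {q : (ℕ → DD) × X | Function.Injective q.1} := by
    have : {q : (ℕ → DD) × X | Function.Injective q.1} = ⋂ n : ℕ, ⋂ m : ℕ, ⋂ _ : n ≠ m, ⋂ d : DD,
        ({q : (ℕ → DD) × X | q.1 n = d} ∩ {q : (ℕ → DD) × X | q.1 m = d})ᶜ := by
      ext q
      simp only [mem_iInter, mem_compl_iff, mem_inter_iff, mem_setOf_eq]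
      constructor
      · rintro h n m hnm d ⟨h1, h2⟩
        exact hnm (h (by rw [h1, h2]))
      · intro h n m hnm
        by_contra h1
        exact h n m h1 _ ⟨hnm, rfl⟩
    rw [this]
    exact MeasurableSet.iInter fun n => MeasurableSet.iInter fun m => MeasurableSet.iInter fun _ =>
      MeasurableSet.iInter fun d => ((hn n d).inter (hn m d)).compl
  have hE : ∀ d : DD, MeasurableSet {q : (ℕ → DD) × X | ∃ n, q.1 n = d} := by
    intro d
    have : {q : (ℕ → DD) × X | ∃ n, q.1 n = d} = ⋃ n : ℕ, {q : (ℕ → DD) × X | q.1 n = d} := by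
      ext q
      simp
    rw [this]
    exact MeasurableSet.iUnion fun n => hn n d
  have : {q : (ℕ → DD) × X | Fb (Λ q.2) q.1} = {q : (ℕ → DD) × X | Function.Injective q.1} ∩
      ⋂ d : DD, (({q : (ℕ → DD) × X | Ad (Λ q.2) d}ᶜ ∪ {q : (ℕ → DD) × X | ∃ n, q.1 n = d}) ∩
        ({q : (ℕ → DD) × X | Ad (Λ q.2) d} ∪ {q : (ℕ → DD) × X | ∃ n, q.1 n = d}ᶜ)) := by
    ext q
    simp only [mem_iInter, mem_inter_iff, mem_union, mem_compl_iff, mem_setOf_eq, Fb]
    refine and_congr Iff.rfl (forall_congr' fun d => ?_)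
    tauto
  rw [this]
  exact hI.inter (MeasurableSet.iInter fun d => ((hJ d).compl.union (hE d)).inter
    ((hJ d).union (hE d).compl))

open Classical in
/-- the enumeration of the points which occur -/
noncomputable def en (e : ℕ ≃ DD) (L : List ℤ → Set K) (n : ℕ) : DD :=
  e (Nat.nth (fun m => Ad L (e m)) n)

lemma Ad_infinite (e : ℕ ≃ DD) (L : List ℤ → Set K) : (setOf fun m => Ad L (e m)).Infinite := by
  have h1 : range (fun i : ℕ => e.symm (DD.nd [(i : ℤ)])) ⊆ setOf fun m => Ad L (e m) := by
    rintro n ⟨i, rfl⟩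
    change Ad L (e (e.symm (DD.nd [(i : ℤ)])))
    rw [Equiv.apply_symm_apply]
    exact Ad_nd _ _
  refine Infinite.mono h1 (infinite_range_of_injective ?_)
  intro i j hij
  have h2 := e.symm.injective hij
  simpa using h2

lemma Fb_en (e : ℕ ≃ DD) (L : List ℤ → Set K) : Fb L (en e L) := by
  have hinf := Ad_infinite e L
  constructor
  · exact e.injective.comp (Nat.nth_injective hinf)
  · intro d
    constructor
    · intro hd
      have h1 : Ad L (e (e.symm d)) := by rwa [Equiv.apply_symm_apply]
      have h2 := Nat.exists_lt_card_nth_eq (p := fun m => Ad L (e m)) h1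
      obtain ⟨n, _, hn⟩ := h2
      refine ⟨n, ?_⟩
      unfold en
      rw [hn, Equiv.apply_symm_apply]
    · rintro ⟨n, rfl⟩
      exact Nat.nth_mem_of_infinite hinf n

lemma measurable_en (hΛ : ∀ p κ, MeasurableSet {x : X | κ ∈ Λ x p}) (e : ℕ ≃ DD) :
    Measurable (fun x : X => en e (Λ x)) := by
  classical
  refine measurable_pi_lambda _ fun n => ?_
  have hc : ∀ m : ℕ, Measurable (fun x : X => Nat.count (fun m => Ad (Λ x) (e m)) m) := by
    intro m
    induction m with
    | zero => simp only [Nat.count_zero]; exact measurable_const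
    | succ m ih =>
      simp only [Nat.count_succ]
      exact ih.add (Measurable.ite (measurableSet_Ad Λ hΛ _) measurable_const measurable_const)
  have hn : Measurable (fun x : X => Nat.nth (fun m => Ad (Λ x) (e m)) n) := by
    apply measurable_to_countable'
    intro m
    have : (fun x : X => Nat.nth (fun m => Ad (Λ x) (e m)) n) ⁻¹' {m} =
        {x | Ad (Λ x) (e m)} ∩ (fun x : X => Nat.count (fun m => Ad (Λ x) (e m)) m) ⁻¹' {n} := by
      ext x
      simp only [mem_preimage, mem_singleton_iff, mem_inter_iff, mem_setOf_eq]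
      constructor
      · rintro rfl
        refine ⟨Nat.nth_mem_of_infinite (Ad_infinite e (Λ x)) n, ?_⟩
        exact Nat.count_nth_of_infinite (Ad_infinite e (Λ x)) n
      · rintro ⟨h1, h2⟩
        rw [← h2]
        exact Nat.nth_count (p := fun m => Ad (Λ x) (e m)) h1
    rw [this]
    exact (measurableSet_Ad Λ hΛ _).inter (hc m (measurableSet_singleton n))
  exact (Measurable.of_discrete (f := fun m : ℕ => e m)).comp hn

end

lemma Fb.perm {L : List ℤ → Set K} {π : ℕ → DD} (h : Fb L π) (σ : Equiv.Perm ℕ) :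
    Fb L (π ∘ σ) := by
  refine ⟨h.1.comp σ.injective, fun d => ?_⟩
  rw [h.2]
  constructor
  · rintro ⟨n, hn⟩
    exact ⟨σ.symm n, by simpa using hn⟩
  · rintro ⟨n, hn⟩
    exact ⟨σ n, hn⟩

/-- The main theorem: every analytic quasi-order on a nonempty Polish space is Borel equivalent to
elementary embeddability on an invariant Borel class of countable structures. -/
theorem main (X : Type) [Nonempty X] [TopologicalSpace X] [PolishSpace X] [MeasurableSpace X]
    [BorelSpace X] (R : X → X → Prop) (hrefl : ∀ x, R x x)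
    (htrans : ∀ x y z, R x y → R y z → R x z) (hR : AnalyticSet {p : X × X | R p.1 p.2}) :
    ∃ B : Set (Cd ar), MeasurableSet B ∧
      (∀ (σ : Equiv.Perm ℕ) (u : Cd ar), u ∈ B ↔ (fun i v => u i (σ ∘ v)) ∈ B) ∧
      (∃ f : X → Cd ar, Measurable f ∧ (∀ x, f x ∈ B) ∧
        ∀ x y, R x y ↔ Nonempty (@FirstOrder.Language.ElementaryEmbedding (Lg ar) ℕ ℕ
          (St ar (f x)) (St ar (f y)))) ∧
      (∃ g : B → X, Measurable g ∧
        ∀ u v : B, Nonempty (@FirstOrder.Language.ElementaryEmbedding (Lg ar) ℕ ℕ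
          (St ar u.1) (St ar v.1)) ↔ R (g u) (g v)) := by
  classical
  obtain ⟨x₀⟩ := ‹Nonempty X›
  -- a Borel embedding of `X` into Baire space
  obtain ⟨c₀, hc₀m, hc₀i⟩ :=
    MeasurableSpace.measurable_injection_nat_bool_of_countablySeparated X
  let c : X → N := fun x n => (c₀ x n).toNat
  have hcm : Measurable c := by
    refine measurable_pi_lambda _ fun n => ?_
    exact (Measurable.of_discrete (f := Bool.toNat)).comp ((measurable_pi_apply n).comp hc₀m)
  have hci : Function.Injective c := by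
    intro x y hxy
    apply hc₀i
    funext n
    have h := congrFun hxy n
    simp only [c] at h
    cases h1 : c₀ x n <;> cases h2 : c₀ y n <;> simp_all
  -- the relation as a continuous image
  rw [AnalyticSet] at hR
  obtain ⟨ψ, hψ, hψr⟩ : ∃ ψ : (ℕ → ℕ) → X × X, Continuous ψ ∧
      range ψ = {p : X × X | R p.1 p.2} := by
    rcases hR with hR | hR
    · have : (x₀, x₀) ∈ {p : X × X | R p.1 p.2} := hrefl x₀
      rw [hR] at this
      exact absurd this (notMem_empty _)
    · exact hR
  have hψR : ∀ w, R (ψ w).1 (ψ w).2 := by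
    intro w
    have : ψ w ∈ {p : X × X | R p.1 p.2} := by
      rw [← hψr]
      exact ⟨w, rfl⟩
    exact this
  have hS : AnalyticSet (range fun w : ℕ → ℕ => (c (ψ w).1, c (ψ w).2)) := by
    have h1 : Measurable (fun w : ℕ → ℕ => (c (ψ w).1, c (ψ w).2)) :=
      (hcm.comp (measurable_fst.comp hψ.measurable)).prodMk
        (hcm.comp (measurable_snd.comp hψ.measurable))
    have h2 := (MeasurableSet.univ (α := ℕ → ℕ)).analyticSet_image h1
    rwa [image_univ] at h2
  rw [AnalyticSet] at hS
  obtain ⟨θ, hθ, hθr⟩ : ∃ θ : N → N × N, Continuous θ ∧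
      range θ = range fun w : ℕ → ℕ => (c (ψ w).1, c (ψ w).2) := by
    rcases hS with hS | hS
    · have : (c (ψ 0).1, c (ψ 0).2) ∈ (∅ : Set (N × N)) := by
        rw [← hS]
        exact ⟨0, rfl⟩
      exact absurd this (notMem_empty _)
    · exact hS
  let α : N → N := fun w => (θ w).1
  let β : N → N := fun w => (θ w).2
  have hα : Continuous α := continuous_fst.comp hθ
  have hβ : Continuous β := continuous_snd.comp hθ
  have h1 : ∀ w, ∃ x y, R x y ∧ α w = c x ∧ β w = c y := by
    intro w
    have : θ w ∈ range fun w : ℕ → ℕ => (c (ψ w).1, c (ψ w).2) := by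
      rw [← hθr]
      exact ⟨w, rfl⟩
    obtain ⟨w', hw'⟩ := this
    exact ⟨(ψ w').1, (ψ w').2, hψR w', (congrArg Prod.fst hw').symm, (congrArg Prod.snd hw').symm⟩
  have h2 : ∀ x y, R x y → ∃ w, α w = c x ∧ β w = c y := by
    intro x y hxy
    have hmem : (x, y) ∈ {p : X × X | R p.1 p.2} := hxy
    rw [← hψr] at hmem
    obtain ⟨w', hw'⟩ := hmem
    have : (c x, c y) ∈ range θ := by
      rw [hθr]
      exact ⟨w', by simp only [hw']⟩
    obtain ⟨w, hw⟩ := this
    exact ⟨w, congrArg Prod.fst hw, congrArg Prod.snd hw⟩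
  have htr : ∀ u v t w w', α w = u → β w = v → α w' = v → β w' = t →
      ∃ w'', α w'' = u ∧ β w'' = t := by
    intro u v t w w' e1 e2 e3 e4
    obtain ⟨x, y, hxy, e5, e6⟩ := h1 w
    obtain ⟨y', z, hyz, e7, e8⟩ := h1 w'
    have : y = y' := hci (by rw [← e6, ← e7, e2, e3])
    subst this
    obtain ⟨w'', e9, e10⟩ := h2 x z (htrans x y z hxy hyz)
    exact ⟨w'', by rw [e9, ← e5, e1], by rw [e10, ← e8, e4]⟩
  let Λ : X → List ℤ → Set K := fun x => Lam α β (c x)
  have key1 : ∀ x y, R x y → TLe (Λ x) (Λ y) := by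
    intro x y h
    obtain ⟨w, e1, e2⟩ := h2 x y h
    exact tree_map e1 e2
  have key2 : ∀ x y, TW (Λ x) (Λ y) → R x y := by
    intro x y h
    rcases rel_of_treeW hα hβ htr h with h3 | ⟨w, e1, e2⟩
    · rw [hci h3]
      exact hrefl _
    · obtain ⟨x', y', hxy, e3, e4⟩ := h1 w
      have e5 : x = x' := hci (by rw [← e1, e3])
      have e6 : y = y' := hci (by rw [← e2, e4])
      rw [e5, e6]
      exact hxy
  have key : ∀ x y π π', Fb (Λ x) π → Fb (Λ y) π' →
      (Nonempty (@FirstOrder.Language.ElementaryEmbedding (Lg ar) ℕ ℕ (St ar (pl π))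
        (St ar (pl π'))) ↔ R x y) := by
    intro x y π π' hF hF'
    exact ⟨fun h => key2 x y (TW_of_elem hF hF' h), fun h => elem_of_TLe hF hF' (key1 x y h)⟩
  have hΛ : ∀ p κ, MeasurableSet {x : X | κ ∈ Λ x p} := fun p κ =>
    hcm (measurableSet_lam (α := α) (β := β) p κ)
  -- the class of structures
  let A : Set ((ℕ → DD) × X) := {q | Fb (Λ q.2) q.1}
  have hA : MeasurableSet A := measurableSet_Fb Λ hΛ
  let Φ : (ℕ → DD) × X → Cd ar := fun q => pl q.1
  have hΦ : Measurable Φ := measurable_pl.comp measurable_fst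
  have hinj : InjOn Φ A := by
    rintro ⟨π, x⟩ hq ⟨π', x'⟩ hq' h
    obtain ⟨g, hg, hgπ, hgΛ⟩ := lemE (show Fb (Λ x) π from hq) (show Fb (Λ x') π' from hq') h
    obtain ⟨hid, hxx⟩ := rigid hg hgΛ
    have : ∀ d, mp g d = d := by
      intro d
      rcases DD_cases d with ⟨p, rfl⟩ | ⟨p, κ, h, rfl⟩
      · change DD.nd (g p) = _
        rw [hid]
      · change DD.el (g p) κ h = _
        rw [hid]
    refine Prod.ext ?_ (hci hxx)
    funext n
    change π n = π' n
    rw [hgπ, this]
  have hAs : StandardBorelSpace A := hA.standardBorel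
  let Ψ : A → Cd ar := fun q => Φ q.1
  have hΨ : MeasurableEmbedding Ψ := by
    apply Measurable.measurableEmbedding (hΦ.comp measurable_subtype_coe)
    intro q q' h
    exact Subtype.ext (hinj q.2 q'.2 h)
  obtain ⟨G, hG, hGΨ⟩ := hΨ.exists_measurable_extend
    (g := fun q : A => q.1.2) (measurable_snd.comp measurable_subtype_coe) (fun _ => ⟨x₀⟩)
  have hGpull : ∀ π x, Fb (Λ x) π → G (pl π) = x := by
    intro π x h
    exact congrFun hGΨ ⟨(π, x), h⟩
  obtain ⟨e⟩ : Nonempty (ℕ ≃ DD) := by
    haveI := Classical.choice (nonempty_denumerable DD)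
    exact ⟨(Denumerable.eqv DD).symm⟩
  have hinv : ∀ (σ : Equiv.Perm ℕ) (u : Cd ar), u ∈ Φ '' A → (fun i v => u i (σ ∘ v)) ∈ Φ '' A := by
    rintro σ _ ⟨⟨π, x⟩, hq, rfl⟩
    exact ⟨(π ∘ σ, x), Fb.perm (show Fb (Λ x) π from hq) σ, rfl⟩
  refine ⟨Φ '' A, hA.image_of_measurable_injOn hΦ hinj, ?_, ?_, ?_⟩
  · intro σ u
    refine ⟨hinv σ u, fun h => ?_⟩
    have h3 := hinv σ⁻¹ _ h
    have h4 : (fun (i : ℕ) (v : Fin (ar i) → ℕ) => u i (σ ∘ (⇑σ⁻¹ ∘ v))) = u := by
      funext i v
      congr 1
      funext t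
      simp
    rw [← h4]
    exact h3
  · refine ⟨fun x => pl (en e (Λ x)), measurable_pl.comp (measurable_en Λ hΛ e), ?_, ?_⟩
    · intro x
      exact ⟨(en e (Λ x), x), Fb_en e _, rfl⟩
    · intro x y
      exact (key x y _ _ (Fb_en e _) (Fb_en e _)).symm
  · refine ⟨fun u => G u.1, hG.comp measurable_subtype_coe, ?_⟩
    rintro ⟨_, ⟨⟨π, x⟩, hq, rfl⟩⟩ ⟨_, ⟨⟨π', y⟩, hq', rfl⟩⟩
    change _ ↔ R (G (pl π)) (G (pl π'))
    rw [hGpull π x hq, hGpull π' y hq']
    exact key x y π π' hq hq'

end Pool.Agent.U109.EE
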